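import Pool.Agent.N359.Cone.Fub

/-!
# A convex subset of a ball of proportional volume comes close to the centre
-/

set_option autoImplicit false

namespace Pool.Agent.N359.Cone

open MeasureTheory Set Metric Pool.Agent.TH703.Cone
open scoped ENNReal InnerProductSpace Real

theorem int_inner_sq {b : ℕ} (R : ℝ) (e : B b) :
    IntegrableOn (fun y => ⟪e, y⟫_ℝ ^ 2) (ball (0 : B b) R) := by
  have hc : Continuous (fun y : B b => ⟪e, y⟫_ℝ ^ 2) := by fun_prop
  exact (hc.continuousOn.integrableOn_compact (isCompact_closedBall (0 : B b) R)).mono_set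
    ball_subset_closedBall

theorem second_moment_rot {b : ℕ} (R : ℝ) {v w : B b} (h : ‖v‖ = ‖w‖) :
    ∫ y in ball (0 : B b) R, ⟪v, y⟫_ℝ ^ 2 = ∫ y in ball (0 : B b) R, ⟪w, y⟫_ℝ ^ 2 := by
  obtain ⟨f, hf⟩ : ∃ f : B b ≃ₗᵢ[ℝ] B b, f v = w :=
    ⟨Submodule.reflection (ℝ ∙ (v - w))ᗮ, Submodule.reflection_sub h⟩
  have hmp : MeasurePreserving (f : B b → B b) := f.measurePreserving
  have h1 := hmp.setIntegral_preimage_emb f.toHomeomorph.measurableEmbedding
    (fun y => ⟪w, y⟫_ℝ ^ 2) (ball 0 R)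
  rw [← h1]
  have : f ⁻¹' ball 0 R = ball 0 R := by
    ext y
    simp
  rw [this]
  refine integral_congr_ae (Filter.Eventually.of_forall fun y => ?_)
  simp only
  rw [← hf, f.inner_map_map]

theorem second_moment {b : ℕ} (hb : 1 ≤ b) (e : B b) (R : ℝ) :
    ∫ y in ball (0 : B b) R, ⟪e, y⟫_ℝ ^ 2 ≤
      ‖e‖ ^ 2 * R ^ 2 * volume.real (ball (0 : B b) R) / b := by
  have hb0 : (0 : ℝ) < b := by exact_mod_cast hb
  rw [le_div_iff₀ hb0]
  set f := EuclideanSpace.basisFun (Fin b) ℝ with hf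
  have h1 : ∀ i, ∫ y in ball (0 : B b) R, ⟪e, y⟫_ℝ ^ 2 =
      ∫ y in ball (0 : B b) R, ⟪‖e‖ • f i, y⟫_ℝ ^ 2 := by
    intro i
    apply second_moment_rot
    rw [norm_smul, f.orthonormal.1 i, mul_one, norm_norm]
  have h2 : (∫ y in ball (0 : B b) R, ⟪e, y⟫_ℝ ^ 2) * b =
      ∑ i : Fin b, ∫ y in ball (0 : B b) R, ⟪‖e‖ • f i, y⟫_ℝ ^ 2 := by
    rw [← Finset.sum_congr rfl (fun i _ => h1 i), Finset.sum_const, Finset.card_univ,
      Fintype.card_fin, nsmul_eq_mul, mul_comm]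
  rw [h2, ← integral_finsetSum _ (fun i _ => int_inner_sq R _)]
  have h3 : ∀ y : B b, ∑ i : Fin b, ⟪‖e‖ • f i, y⟫_ℝ ^ 2 = ‖e‖ ^ 2 * ‖y‖ ^ 2 := by
    intro y
    rw [← f.sum_sq_norm_inner_right y, Finset.mul_sum]
    refine Finset.sum_congr rfl fun i _ => ?_
    rw [real_inner_smul_left, mul_pow, Real.norm_eq_abs, sq_abs]
  simp_rw [h3]
  calc ∫ y in ball (0 : B b) R, ‖e‖ ^ 2 * ‖y‖ ^ 2
      ≤ ∫ y in ball (0 : B b) R, ‖e‖ ^ 2 * R ^ 2 := by
        apply setIntegral_mono_on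
        · have hc : Continuous (fun y : B b => ‖e‖ ^ 2 * ‖y‖ ^ 2) := by fun_prop
          exact (hc.continuousOn.integrableOn_compact (isCompact_closedBall (0 : B b) R)).mono_set
            ball_subset_closedBall
        · exact integrableOn_const measure_ball_lt_top.ne
        · exact measurableSet_ball
        · intro y hy
          rw [mem_ball_zero_iff] at hy
          gcongr
    _ = ‖e‖ ^ 2 * R ^ 2 * volume.real (ball (0 : B b) R) := by
        rw [setIntegral_const, smul_eq_mul, mul_comm]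

/-- a convex open subset of a ball of proportional volume comes close to the centre -/
theorem near_center {b : ℕ} (hb : 1 ≤ b) {C : Set (B b)} {R q δ : ℝ} (hR : 0 < R) (hq : 0 < q)
    (hC : Convex ℝ C) (hCo : IsOpen C) (hsub : C ⊆ ball 0 R)
    (hvol : q * volume.real (ball (0 : B b) R) ≤ volume.real C) (hδ0 : 0 < δ)
    (hδ : R ^ 2 < q * b * δ ^ 2) : ∃ y ∈ C, ‖y‖ < δ := by
  have hb0 : (0 : ℝ) < b := by exact_mod_cast hb
  have hV : 0 < volume.real (ball (0 : B b) R) := by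
    rw [measureReal_def]
    exact ENNReal.toReal_pos (measure_ball_pos volume _ hR).ne' measure_ball_lt_top.ne
  have hCfin : volume C ≠ ∞ := ((measure_mono hsub).trans_lt measure_ball_lt_top).ne
  have hCpos : 0 < volume.real C := lt_of_lt_of_le (mul_pos hq hV) hvol
  have hC0 : volume C ≠ 0 := by
    intro h
    rw [measureReal_def, h] at hCpos
    simp at hCpos
  have hid : IntegrableOn (fun y : B b => y) C :=
    (continuous_id.continuousOn.integrableOn_compact (isCompact_closedBall (0 : B b) R)).mono_set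
      (hsub.trans ball_subset_closedBall)
  set m : B b := ⨍ y in C, y with hm
  have hmem : m ∈ closure C := by
    apply hC.set_average_mem_closure hC0 hCfin _ hid
    exact ae_restrict_mem hCo.measurableSet
  have hmint : volume.real C • m = ∫ y in C, y := by
    rw [hm, setAverage_eq, smul_smul, mul_inv_cancel₀ hCpos.ne', one_smul]
  have h1 : volume.real C * ‖m‖ ^ 2 = ∫ y in C, ⟪m, y⟫_ℝ := by
    rw [integral_inner hid, ← hmint, real_inner_smul_right, real_inner_self_eq_norm_sq]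
  have hsq : ‖m‖ ^ 2 < δ ^ 2 := by
    rcases eq_or_ne m 0 with h0 | h0
    · rw [h0]
      simp only [norm_zero, ne_eq, OfNat.ofNat_ne_zero, not_false_eq_true, zero_pow]
      positivity
    have hm0 : 0 < ‖m‖ ^ 2 := by positivity
    have h2 : ∫ y in C, ⟪m, y⟫_ℝ ≤ ∫ y in C, ((1 / (2 * ‖m‖ ^ 2)) * ⟪m, y⟫_ℝ ^ 2 + ‖m‖ ^ 2 / 2) := by
      apply setIntegral_mono_on
      · exact hid.const_inner m
      · exact ((int_inner_sq R m).mono_set hsub).const_mul _ |>.add (integrableOn_const hCfin)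
      · exact hCo.measurableSet
      · intro y _
        have hx : 0 ≤ (⟪m, y⟫_ℝ - ‖m‖ ^ 2) ^ 2 / (2 * ‖m‖ ^ 2) := by positivity
        have he : (⟪m, y⟫_ℝ - ‖m‖ ^ 2) ^ 2 / (2 * ‖m‖ ^ 2) =
            (1 / (2 * ‖m‖ ^ 2)) * ⟪m, y⟫_ℝ ^ 2 + ‖m‖ ^ 2 / 2 - ⟪m, y⟫_ℝ := by
          field_simp
          ring
        linarith
    have h3 : ∫ y in C, ((1 / (2 * ‖m‖ ^ 2)) * ⟪m, y⟫_ℝ ^ 2 + ‖m‖ ^ 2 / 2) =
        (1 / (2 * ‖m‖ ^ 2)) * (∫ y in C, ⟪m, y⟫_ℝ ^ 2) + volume.real C * (‖m‖ ^ 2 / 2) := by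
      rw [integral_add (((int_inner_sq R m).mono_set hsub).const_mul _)
        (integrableOn_const hCfin), integral_const_mul, setIntegral_const, smul_eq_mul]
    have h4 : ∫ y in C, ⟪m, y⟫_ℝ ^ 2 ≤ ∫ y in ball (0 : B b) R, ⟪m, y⟫_ℝ ^ 2 := by
      apply setIntegral_mono_set (int_inner_sq R m)
      · exact Filter.Eventually.of_forall fun y => sq_nonneg _
      · exact Filter.Eventually.of_forall fun y hy => hsub hy
    have h5 := second_moment hb m R
    have h6 : volume.real C * ‖m‖ ^ 2 ≤ R ^ 2 * volume.real (ball (0 : B b) R) / b := by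
      have h7 : (1 / (2 * ‖m‖ ^ 2)) * (∫ y in C, ⟪m, y⟫_ℝ ^ 2) ≤
          (1 / (2 * ‖m‖ ^ 2)) * (‖m‖ ^ 2 * R ^ 2 * volume.real (ball (0 : B b) R) / b) :=
        mul_le_mul_of_nonneg_left (h4.trans h5) (by positivity)
      have h8 : (1 / (2 * ‖m‖ ^ 2)) * (‖m‖ ^ 2 * R ^ 2 * volume.real (ball (0 : B b) R) / b) =
          R ^ 2 * volume.real (ball (0 : B b) R) / b / 2 := by
        field_simp
      rw [h8] at h7
      have h9 : volume.real C * (‖m‖ ^ 2 / 2) = volume.real C * ‖m‖ ^ 2 / 2 := by ring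
      linarith
    have h9 : q * volume.real (ball (0 : B b) R) * ‖m‖ ^ 2 * b ≤
        R ^ 2 * volume.real (ball (0 : B b) R) := by
      have := mul_le_mul_of_nonneg_right hvol hm0.le
      have h10 := this.trans h6
      rwa [le_div_iff₀ hb0] at h10
    have h11 : q * b * ‖m‖ ^ 2 ≤ R ^ 2 := by
      by_contra hcon
      push Not at hcon
      have := mul_lt_mul_of_pos_right hcon hV
      linarith
    by_contra hcon
    push Not at hcon
    have : q * b * δ ^ 2 ≤ q * b * ‖m‖ ^ 2 := mul_le_mul_of_nonneg_left hcon (by positivity)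
    linarith
  have hnm : ‖m‖ < δ := lt_of_pow_lt_pow_left₀ 2 hδ0.le hsq
  obtain ⟨y, hy, hym⟩ := Metric.mem_closure_iff.1 hmem (δ - ‖m‖) (by linarith)
  refine ⟨y, hy, ?_⟩
  rw [dist_eq_norm] at hym
  calc ‖y‖ = ‖m - (m - y)‖ := by congr 1; abel
    _ ≤ ‖m‖ + ‖m - y‖ := norm_sub_le _ _
    _ < δ := by linarith

end Pool.Agent.N359.Cone
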