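import Pool.Agent.TH703.Cone.Stm

/-!
# Fubini for the body `Om b ε` and the volumes of its fibres
-/

set_option autoImplicit false

namespace Pool.Agent.N359.Cone

open MeasureTheory Set Metric Pool.Agent.TH703.Cone
open scoped ENNReal InnerProductSpace

theorem meas_toLp {b : ℕ} : Measurable (fun p : ℂ × B b => (WithLp.toLp 2 p : W b)) :=
  (WithLp.volume_preserving_toLp (U := ℂ) (V := B b)).measurable

/-- Fubini -/
theorem vol_eq {b : ℕ} {A : Set (W b)} (hA : MeasurableSet A) :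
    volume A = ∫⁻ x : ℂ, volume (fib A x) := by
  have h := (WithLp.volume_preserving_toLp (U := ℂ) (V := B b))
  have h1 : volume A = volume ((fun p : ℂ × B b => (WithLp.toLp 2 p : W b)) ⁻¹' A) :=
    (h.measure_preimage hA.nullMeasurableSet).symm
  rw [h1, Measure.volume_eq_prod, Measure.prod_apply (meas_toLp hA)]
  rfl

theorem meas_fib {b : ℕ} {A : Set (W b)} (hA : MeasurableSet A) (x : ℂ) :
    MeasurableSet (fib A x) := by
  have : fib A x = Prod.mk x ⁻¹' ((fun p : ℂ × B b => (WithLp.toLp 2 p : W b)) ⁻¹' A) := rfl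
  rw [this]
  exact measurable_prodMk_left (meas_toLp hA)

theorem meas_vol_fib {b : ℕ} {A : Set (W b)} (hA : MeasurableSet A) :
    Measurable (fun x : ℂ => volume (fib A x)) :=
  measurable_measure_prodMk_left (meas_toLp hA)

/-- Fubini over a set of base points -/
theorem vol_eq_on {b : ℕ} {A : Set (W b)} (hA : MeasurableSet A) {S : Set ℂ}
    (hS : MeasurableSet S) :
    volume {z | z ∈ A ∧ z.fst ∈ S} = ∫⁻ x in S, volume (fib A x) := by
  have hm : Measurable (fun z : W b => z.fst) :=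
    measurable_fst.comp (WithLp.volume_preserving_ofLp (U := ℂ) (V := B b)).measurable
  have hset : {z | z ∈ A ∧ z.fst ∈ S} = A ∩ (fun z : W b => z.fst) ⁻¹' S := rfl
  rw [hset, vol_eq (hA.inter (hm hS)), ← lintegral_indicator hS]
  refine lintegral_congr fun x => ?_
  by_cases hx : x ∈ S
  · rw [indicator_of_mem hx]
    congr 1
    ext y
    constructor
    · intro h
      exact h.1
    · intro h
      exact ⟨h, hx⟩
  · rw [indicator_of_notMem hx]
    have : fib (A ∩ (fun z : W b => z.fst) ⁻¹' S) x = ∅ := by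
      ext y
      simp only [mem_empty_iff_false, iff_false]
      intro h
      exact hx h.2
    rw [this, measure_empty]

theorem mem_Om {b : ℕ} {ε : ℝ} {x : ℂ} {y : B b} :
    (WithLp.toLp 2 (x, y) : W b) ∈ Om b ε ↔ ‖x‖ + ‖y‖ / ε < 1 := Iff.rfl

theorem fib_Om {b : ℕ} {ε : ℝ} (hε : 0 < ε) (x : ℂ) :
    fib (Om b ε) x = ball (0 : B b) (ε * (1 - ‖x‖)) := by
  ext y
  rw [mem_ball_zero_iff]
  change ‖x‖ + ‖y‖ / ε < 1 ↔ _
  rw [← lt_sub_iff_add_lt', div_lt_iff₀ hε, mul_comm]

theorem fib_Om_empty {b : ℕ} {ε : ℝ} (hε : 0 < ε) {x : ℂ} (hx : 1 ≤ ‖x‖) :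
    fib (Om b ε) x = ∅ := by
  rw [fib_Om hε, ball_eq_empty]
  nlinarith

theorem vol_ball_eq {b : ℕ} {ε : ℝ} :
    volume (ball (0 : B b) ε) = ENNReal.ofReal (vb b ε) := by
  unfold vb
  rw [measureReal_def, ENNReal.ofReal_toReal measure_ball_lt_top.ne]

theorem vb_pos {b : ℕ} {ε : ℝ} (hε : 0 < ε) : 0 < vb b ε := by
  unfold vb
  rw [measureReal_def]
  exact ENNReal.toReal_pos (measure_ball_pos volume _ hε).ne' measure_ball_lt_top.ne

theorem vol_fib_Om {b : ℕ} {ε : ℝ} (hε : 0 < ε) {x : ℂ} (hx : ‖x‖ < 1) :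
    volume (fib (Om b ε) x) = ENNReal.ofReal (vb b ε * (1 - ‖x‖) ^ b) := by
  rw [fib_Om hε, mul_comm ε, Measure.addHaar_ball_mul_of_pos volume _ (by linarith),
    vol_ball_eq, finrank_euclideanSpace_fin, mul_comm,
    ENNReal.ofReal_mul (vb_pos hε).le]

theorem isOpen_Om {b : ℕ} {ε : ℝ} : IsOpen (Om b ε) := by
  unfold Om
  have h1 : Continuous (fun z : W b => z.fst) := by fun_prop
  have h2 : Continuous (fun z : W b => z.snd) := by fun_prop
  exact isOpen_lt ((h1.norm).add (h2.norm.div_const _)) continuous_const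

end Pool.Agent.N359.Cone
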