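import Pool.Agent.N359.Cone.Sel
import Pool.Agent.N359.Cone.Ball

/-!
# Geometry of the convex cones of volume at least `c |Om b ε|`
-/

set_option autoImplicit false

namespace Pool.Agent.N359.Cone

open MeasureTheory Set Metric Pool.Agent.TH703.Cone
open scoped ENNReal InnerProductSpace Real ComplexConjugate

/-- determinant of two plane vectors -/
noncomputable def dt (x y : ℂ) : ℝ := x.re * y.im - x.im * y.re

theorem dt_eq (x y : ℂ) : dt x y = (conj x * y).im := by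
  simp [dt, Complex.mul_im]
  ring

theorem abs_dt_le (x y : ℂ) : |dt x y| ≤ ‖x‖ * ‖y‖ := by
  rw [dt_eq]
  refine (Complex.abs_im_le_norm _).trans ?_
  rw [norm_mul, RCLike.norm_conj]

/-- Cramer's rule -/
theorem cramer (x y z : ℂ) : (dt x y : ℂ) * z = (dt z y : ℂ) * x + (dt x z : ℂ) * y := by
  apply Complex.ext
  · simp only [dt, Complex.mul_re, Complex.ofReal_re, Complex.ofReal_im, Complex.add_re]
    ring
  · simp only [dt, Complex.mul_im, Complex.ofReal_re, Complex.ofReal_im, Complex.add_im]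
    ring

/-- bisector of two unit vectors -/
theorem bisector {e₁ e₂ : ℂ} {κ : ℝ} (h1 : ‖e₁‖ = 1) (h2 : ‖e₂‖ = 1) (hκ : 0 < κ) (hκ1 : κ ≤ 1)
    (hD : κ ≤ dt e₁ e₂) : ∃ u : ℂ, ‖u‖ = 1 ∧ ∀ v : ℂ, ‖v‖ = 1 → 0 < (v * u).re →
      |(v * u).im| ≤ κ / 8 → κ / 4 ≤ dt e₁ v ∧ κ / 4 ≤ dt v e₂ := by
  set n : ℂ := e₁ + e₂ with hn
  have hs1 : e₁.re ^ 2 + e₁.im ^ 2 = 1 := by
    have := Complex.sq_norm e₁
    rw [h1, Complex.normSq_apply] at this
    nlinarith
  have hs2 : e₂.re ^ 2 + e₂.im ^ 2 = 1 := by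
    have := Complex.sq_norm e₂
    rw [h2, Complex.normSq_apply] at this
    nlinarith
  have hdn1 : dt e₁ n = dt e₁ e₂ := by simp [dt, hn]; ring
  have hdn2 : dt n e₂ = dt e₁ e₂ := by simp [dt, hn]; ring
  have hn0 : n ≠ 0 := by
    intro h
    rw [h] at hdn1
    simp [dt] at hdn1
    unfold dt at hD
    linarith
  have hnpos : 0 < ‖n‖ := norm_pos_iff.2 hn0
  have hn2 : ‖n‖ ≤ 2 := by
    calc ‖n‖ ≤ ‖e₁‖ + ‖e₂‖ := norm_add_le _ _
      _ = 2 := by rw [h1, h2]; norm_num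
  have hnsq : ‖n‖ ^ 2 = n.re ^ 2 + n.im ^ 2 := by
    rw [Complex.sq_norm, Complex.normSq_apply]
    ring
  refine ⟨conj n / ‖n‖, ?_, ?_⟩
  · rw [norm_div, RCLike.norm_conj, Complex.norm_real, norm_norm, div_self hnpos.ne']
  · intro v hv hre him
    have hsv : v.re ^ 2 + v.im ^ 2 = 1 := by
      have := Complex.sq_norm v
      rw [hv, Complex.normSq_apply] at this
      nlinarith
    set α : ℝ := (v * (conj n / ‖n‖)).re with hα
    set β : ℝ := (v * (conj n / ‖n‖)).im with hβ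
    have hαe : α * ‖n‖ = v.re * n.re + v.im * n.im := by
      have : v * (conj n / ‖n‖) = (v * conj n) / (‖n‖ : ℂ) := by ring
      rw [hα, this, Complex.div_ofReal_re, div_mul_cancel₀ _ hnpos.ne']
      simp [Complex.mul_re]
    have hβe : β * ‖n‖ = v.im * n.re - v.re * n.im := by
      have : v * (conj n / ‖n‖) = (v * conj n) / (‖n‖ : ℂ) := by ring
      rw [hβ, this, Complex.div_ofReal_im, div_mul_cancel₀ _ hnpos.ne']
      simp [Complex.mul_im]
      ring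
    have hαβ : α ^ 2 + β ^ 2 = 1 := by
      have : (α ^ 2 + β ^ 2) * ‖n‖ ^ 2 = ‖n‖ ^ 2 := by
        calc (α ^ 2 + β ^ 2) * ‖n‖ ^ 2 = (α * ‖n‖) ^ 2 + (β * ‖n‖) ^ 2 := by ring
          _ = (v.re ^ 2 + v.im ^ 2) * (n.re ^ 2 + n.im ^ 2) := by rw [hαe, hβe]; ring
          _ = ‖n‖ ^ 2 := by rw [hsv, hnsq, one_mul]
      have h3 : ‖n‖ ^ 2 ≠ 0 := by positivity
      exact mul_right_cancel₀ h3 (by rw [this, one_mul])
    have hb2 : |β| ≤ 1 / 8 := him.trans (by linarith)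
    have hα78 : 7 / 8 ≤ α := by
      have : β ^ 2 ≤ 1 / 64 := by
        rw [← sq_abs]
        nlinarith [abs_nonneg β]
      nlinarith
    -- inner product of `e₁` and `n`
    have hi : e₁.re * n.re + e₁.im * n.im = ‖n‖ ^ 2 / 2 := by
      rw [hnsq, hn]
      simp only [Complex.add_re, Complex.add_im]
      linear_combination hs1 / 2 - hs2 / 2
    have hi2 : e₂.re * n.re + e₂.im * n.im = ‖n‖ ^ 2 / 2 := by
      rw [hnsq, hn]
      simp only [Complex.add_re, Complex.add_im]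
      linear_combination hs2 / 2 - hs1 / 2
    have hd1 : dt e₁ v * ‖n‖ ^ 2 = (α * ‖n‖) * dt e₁ e₂ + (β * ‖n‖) * (‖n‖ ^ 2 / 2) := by
      rw [← hdn1, ← hi, hαe, hβe, hnsq]
      unfold dt
      ring
    have hd2 : dt v e₂ * ‖n‖ ^ 2 = (α * ‖n‖) * dt e₁ e₂ - (β * ‖n‖) * (‖n‖ ^ 2 / 2) := by
      rw [← hdn2, ← hi2, hαe, hβe, hnsq]
      unfold dt
      ring
    have hd1' : dt e₁ v * ‖n‖ = α * dt e₁ e₂ + β * (‖n‖ ^ 2 / 2) := by
      apply mul_right_cancel₀ hnpos.ne'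
      linarith [hd1]
    have hd2' : dt v e₂ * ‖n‖ = α * dt e₁ e₂ - β * (‖n‖ ^ 2 / 2) := by
      apply mul_right_cancel₀ hnpos.ne'
      linarith [hd2]
    have hαD : 7 / 8 * κ ≤ α * dt e₁ e₂ := by
      apply mul_le_mul hα78 hD hκ.le (by linarith)
    have hβn : |β * (‖n‖ ^ 2 / 2)| ≤ κ / 8 * ‖n‖ := by
      rw [abs_mul, abs_of_nonneg (by positivity : (0 : ℝ) ≤ ‖n‖ ^ 2 / 2)]
      have : ‖n‖ ^ 2 / 2 ≤ ‖n‖ := by nlinarith
      exact mul_le_mul him this (by positivity) (by linarith)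
    rw [abs_le] at hβn
    have hκn : κ * ‖n‖ ≤ κ * 2 := mul_le_mul_of_nonneg_left hn2 hκ.le
    constructor
    · by_contra hcon
      push Not at hcon
      have : dt e₁ v * ‖n‖ < κ / 4 * ‖n‖ := mul_lt_mul_of_pos_right hcon hnpos
      linarith [hβn.1]
    · by_contra hcon
      push Not at hcon
      have : dt v e₂ * ‖n‖ < κ / 4 * ‖n‖ := mul_lt_mul_of_pos_right hcon hnpos
      linarith [hβn.2]

end Pool.Agent.N359.Cone
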