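import Pool.Agent.N359.Cone.Fub

/-!
# Integrals in polar coordinates
-/

set_option autoImplicit false

namespace Pool.Agent.N359.Cone

open MeasureTheory Set Metric Pool.Agent.TH703.Cone
open scoped ENNReal InnerProductSpace Real

theorem polar_prod (F : ℂ → ℝ≥0∞) (f Θ : ℝ → ℝ≥0∞) (hf : Measurable f) (hΘ : Measurable Θ)
    (h : ∀ ρ θ : ℝ, 0 < ρ → θ ∈ Ioo (-π) π → F (Complex.polarCoord.symm (ρ, θ)) = f ρ * Θ θ) :
    ∫⁻ x, F x = (∫⁻ ρ in Ioi (0 : ℝ), ENNReal.ofReal ρ * f ρ) * ∫⁻ θ in Ioo (-π) π, Θ θ := by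
  rw [← Complex.lintegral_comp_polarCoord_symm]
  have h1 : ∫⁻ p in polarCoord.target, ENNReal.ofReal p.1 • F (Complex.polarCoord.symm p) =
      ∫⁻ p in (Ioi (0 : ℝ)) ×ˢ (Ioo (-π) π), (ENNReal.ofReal p.1 * f p.1) * Θ p.2 := by
    have ht : polarCoord.target = (Ioi (0 : ℝ)) ×ˢ (Ioo (-π) π) := rfl
    rw [ht]
    refine setLIntegral_congr_fun (measurableSet_Ioi.prod measurableSet_Ioo) ?_
    intro p hp
    simp only [smul_eq_mul]
    rw [h p.1 p.2 hp.1 hp.2, mul_assoc]
  rw [h1, Measure.volume_eq_prod, ← Measure.prod_restrict,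
    lintegral_prod_mul (f := fun ρ => ENNReal.ofReal ρ * f ρ) (g := Θ)
      ((ENNReal.measurable_ofReal.mul hf).aemeasurable) hΘ.aemeasurable]

theorem polarCoord_symm_im (ρ θ : ℝ) :
    (Complex.polarCoord.symm (ρ, θ)).im = ρ * Real.sin θ := by
  simp [Complex.polarCoord_symm_apply, Complex.sin_ofReal_re]

theorem polarCoord_symm_re (ρ θ : ℝ) :
    (Complex.polarCoord.symm (ρ, θ)).re = ρ * Real.cos θ := by
  simp [Complex.polarCoord_symm_apply, Complex.cos_ofReal_re]

theorem norm_polar {ρ θ : ℝ} (hρ : 0 < ρ) : ‖Complex.polarCoord.symm (ρ, θ)‖ = ρ := by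
  rw [Complex.norm_polarCoord_symm, abs_of_pos hρ]

/-- the radial integral -/
theorem radial_int (b : ℕ) (r : ℝ) (hr0 : 0 ≤ r) (hr : r ≤ 1) :
    ∫⁻ ρ in Ioi (0 : ℝ), ENNReal.ofReal ρ * (Iio r).indicator
      (fun ρ => ENNReal.ofReal ((1 - ρ) ^ b)) ρ =
    ENNReal.ofReal ((1 - (1 - r) ^ (b + 1) * (1 + (b + 1) * r)) / ((b + 1) * (b + 2))) := by
  have h1 : ∫⁻ ρ in Ioi (0 : ℝ), ENNReal.ofReal ρ * (Iio r).indicator
      (fun ρ => ENNReal.ofReal ((1 - ρ) ^ b)) ρ =
      ∫⁻ ρ in Ioo (0 : ℝ) r, ENNReal.ofReal (ρ * (1 - ρ) ^ b) := by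
    rw [← lintegral_indicator measurableSet_Ioi, ← lintegral_indicator measurableSet_Ioo]
    refine lintegral_congr fun ρ => ?_
    by_cases h0 : 0 < ρ
    · by_cases hr' : ρ < r
      · rw [indicator_of_mem (show ρ ∈ Ioi (0 : ℝ) from h0),
          indicator_of_mem (show ρ ∈ Iio r from hr'),
          indicator_of_mem (show ρ ∈ Ioo 0 r from ⟨h0, hr'⟩), ENNReal.ofReal_mul h0.le]
      · rw [indicator_of_mem (show ρ ∈ Ioi (0 : ℝ) from h0),
          indicator_of_notMem (show ρ ∉ Iio r from hr'),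
          indicator_of_notMem (show ρ ∉ Ioo 0 r from fun h => hr' h.2), mul_zero]
    · rw [indicator_of_notMem (show ρ ∉ Ioi (0 : ℝ) from h0),
        indicator_of_notMem (show ρ ∉ Ioo 0 r from fun h => h0 h.1)]
  rw [h1]
  have hint : IntervalIntegrable (fun ρ : ℝ => ρ * (1 - ρ) ^ b) volume 0 r := by
    apply Continuous.intervalIntegrable
    fun_prop
  have h2 : ∫⁻ ρ in Ioo (0 : ℝ) r, ENNReal.ofReal (ρ * (1 - ρ) ^ b) =
      ENNReal.ofReal (∫ ρ in (0 : ℝ)..r, ρ * (1 - ρ) ^ b) := by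
    rw [intervalIntegral.integral_of_le hr0, integral_Ioc_eq_integral_Ioo,
      ofReal_integral_eq_lintegral_ofReal]
    · exact ((intervalIntegrable_iff_integrableOn_Ioo_of_le hr0).1 hint)
    · rw [Filter.EventuallyLE, ae_restrict_iff' measurableSet_Ioo]
      refine Filter.Eventually.of_forall fun ρ hρ => ?_
      have : 0 ≤ 1 - ρ := by linarith [hρ.2]
      exact mul_nonneg hρ.1.le (pow_nonneg this b)
  rw [h2]
  congr 1
  have hd : ∀ ρ : ℝ, HasDerivAt
      (fun ρ : ℝ => (1 - (1 - ρ) ^ (b + 1) * (1 + (b + 1) * ρ)) / ((b + 1) * (b + 2)))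
      (ρ * (1 - ρ) ^ b) ρ := by
    intro ρ
    have e1 : HasDerivAt (fun ρ : ℝ => (1 - ρ) ^ (b + 1)) (-((b + 1 : ℕ) * (1 - ρ) ^ b)) ρ := by
      have := ((hasDerivAt_id ρ).const_sub 1).fun_pow (b + 1)
      simpa using this
    have e2 : HasDerivAt (fun ρ : ℝ => 1 + ((b : ℝ) + 1) * ρ) ((b : ℝ) + 1) ρ := by
      have := ((hasDerivAt_id ρ).const_mul ((b : ℝ) + 1)).const_add 1
      simpa using this
    have e3 := ((e1.mul e2).const_sub 1).div_const (((b : ℝ) + 1) * (b + 2))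
    have hb1 : ((b : ℝ) + 1) ≠ 0 := by positivity
    have hb2 : ((b : ℝ) + 2) ≠ 0 := by positivity
    have hval : ρ * (1 - ρ) ^ b = -(-(((b + 1 : ℕ) : ℝ) * (1 - ρ) ^ b) * (1 + ((b : ℝ) + 1) * ρ) +
        (1 - ρ) ^ (b + 1) * ((b : ℝ) + 1)) / (((b : ℝ) + 1) * (b + 2)) := by
      rw [eq_div_iff (mul_ne_zero hb1 hb2)]
      push_cast
      ring
    rw [hval]
    exact e3
  rw [intervalIntegral.integral_eq_sub_of_hasDerivAt (fun ρ _ => hd ρ) hint]
  simp

/-- the total weight up to radius `r` -/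
theorem weight_ball (b : ℕ) (r : ℝ) (hr0 : 0 ≤ r) (hr : r ≤ 1) :
    ∫⁻ x : ℂ in ball 0 r, ENNReal.ofReal ((1 - ‖x‖) ^ b) =
    ENNReal.ofReal (2 * π * ((1 - (1 - r) ^ (b + 1) * (1 + (b + 1) * r)) /
      ((b + 1) * (b + 2)))) := by
  rw [← lintegral_indicator measurableSet_ball,
    polar_prod _ ((Iio r).indicator (fun ρ => ENNReal.ofReal ((1 - ρ) ^ b))) (fun _ => 1)
      (by
        apply Measurable.indicator _ measurableSet_Iio
        exact ENNReal.measurable_ofReal.comp (by fun_prop)) measurable_const,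
    radial_int b r hr0 hr]
  · rw [lintegral_one, Measure.restrict_apply_univ, Real.volume_Ioo,
      ← ENNReal.ofReal_mul' (by linarith [Real.pi_pos])]
    congr 1
    ring
  · intro ρ θ hρ hθ
    rw [mul_one]
    by_cases h : ρ < r
    · rw [indicator_of_mem (show ρ ∈ Iio r from h), indicator_of_mem, norm_polar hρ]
      rw [mem_ball_zero_iff, norm_polar hρ]
      exact h
    · rw [indicator_of_notMem (show ρ ∉ Iio r from h), indicator_of_notMem]
      rw [mem_ball_zero_iff, norm_polar hρ]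
      exact h

/-- the measure of the set of directions close to a line -/
theorem vol_sin_lt {κ : ℝ} (hκ : 0 < κ) :
    volume {θ | θ ∈ Ioo (-π) π ∧ |Real.sin θ| < κ} ≤ ENNReal.ofReal (2 * π * κ) := by
  have hπ := Real.pi_pos
  have hsub : {θ | θ ∈ Ioo (-π) π ∧ |Real.sin θ| < κ} ⊆
      Ioo (-(π * κ / 2)) (π * κ / 2) ∪ (Ioo (π - π * κ / 2) π ∪ Ioo (-π) (-π + π * κ / 2)) := by
    rintro θ ⟨⟨h1, h2⟩, h3⟩
    rw [abs_lt] at h3
    have key : ∀ t : ℝ, 0 ≤ t → t ≤ π / 2 → Real.sin t < κ → t < π * κ / 2 := by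
      intro t ht0 ht1 ht
      have := Real.mul_le_sin ht0 ht1
      have h4 : 2 / π * t < κ := lt_of_le_of_lt this ht
      rw [div_mul_eq_mul_div, div_lt_iff₀ hπ] at h4
      linarith
    rcases le_or_gt 0 θ with h0 | h0
    · rcases le_or_gt θ (π / 2) with h4 | h4
      · left
        have := key θ h0 h4 h3.2
        exact ⟨by nlinarith [mul_pos hπ hκ], this⟩
      · right; left
        have := key (π - θ) (by linarith) (by linarith) (by rw [Real.sin_pi_sub]; exact h3.2)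
        exact ⟨by linarith, h2⟩
    · rcases le_or_gt (-(π / 2)) θ with h4 | h4
      · left
        have := key (-θ) (by linarith) (by linarith) (by rw [Real.sin_neg]; linarith [h3.1])
        exact ⟨by linarith, by nlinarith [mul_pos hπ hκ]⟩
      · right; right
        have := key (π + θ) (by linarith) (by linarith) (by
          rw [add_comm, Real.sin_add_pi]; linarith [h3.1])
        exact ⟨h1, by linarith⟩
  refine (measure_mono hsub).trans ((measure_union_le _ _).trans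
    ((add_le_add le_rfl (measure_union_le _ _)).trans ?_))
  rw [Real.volume_Ioo, Real.volume_Ioo, Real.volume_Ioo, ← ENNReal.ofReal_add, ← ENNReal.ofReal_add]
  · apply ENNReal.ofReal_le_ofReal
    linarith
  all_goals nlinarith [mul_pos hπ hκ]

theorem weight_sector0 (b : ℕ) {κ : ℝ} (hκ : 0 < κ) :
    ∫⁻ x : ℂ in {x | ‖x‖ < 1 ∧ |x.im| < κ * ‖x‖}, ENNReal.ofReal ((1 - ‖x‖) ^ b) ≤
    ENNReal.ofReal (κ * (2 * π / ((b + 1) * (b + 2)))) := by
  have hms : MeasurableSet {x : ℂ | ‖x‖ < 1 ∧ |x.im| < κ * ‖x‖} := by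
    apply IsOpen.measurableSet
    apply IsOpen.inter
    · exact isOpen_lt continuous_norm continuous_const
    · exact isOpen_lt (Complex.continuous_im.abs) (continuous_const.mul continuous_norm)
  have hmt : MeasurableSet {θ : ℝ | |Real.sin θ| < κ} :=
    (isOpen_lt (Real.continuous_sin.abs) continuous_const).measurableSet
  rw [← lintegral_indicator hms,
    polar_prod _ ((Iio 1).indicator (fun ρ => ENNReal.ofReal ((1 - ρ) ^ b)))
      ({θ : ℝ | |Real.sin θ| < κ}.indicator (fun _ => 1))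
      (by
        apply Measurable.indicator _ measurableSet_Iio
        exact ENNReal.measurable_ofReal.comp (by fun_prop))
      (measurable_const.indicator hmt),
    radial_int b 1 zero_le_one le_rfl]
  · rw [lintegral_indicator hmt, lintegral_one, Measure.restrict_apply_univ,
      Measure.restrict_apply hmt]
    have h2 : {θ : ℝ | |Real.sin θ| < κ} ∩ Ioo (-π) π = {θ | θ ∈ Ioo (-π) π ∧ |Real.sin θ| < κ} := by
      ext θ
      exact and_comm
    rw [h2]
    refine (mul_le_mul_right (vol_sin_lt hκ) _).trans ?_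
    rw [← ENNReal.ofReal_mul]
    · apply ENNReal.ofReal_le_ofReal
      simp only [sub_self, ne_eq, Nat.add_eq_zero_iff, one_ne_zero, and_false, not_false_eq_true,
        zero_pow, zero_mul, sub_zero]
      apply le_of_eq
      ring
    · simp only [sub_self, ne_eq, Nat.add_eq_zero_iff, one_ne_zero, and_false, not_false_eq_true,
        zero_pow, zero_mul, sub_zero]
      positivity
  · intro ρ θ hρ hθ
    have hiff : Complex.polarCoord.symm (ρ, θ) ∈ {x : ℂ | ‖x‖ < 1 ∧ |x.im| < κ * ‖x‖} ↔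
        ρ < 1 ∧ |Real.sin θ| < κ := by
      simp only [mem_ofPred_eq, norm_polar hρ, polarCoord_symm_im, abs_mul, abs_of_pos hρ]
      rw [mul_comm κ, mul_lt_mul_iff_right₀ hρ]
    by_cases h1 : ρ < 1
    · rw [indicator_of_mem (show ρ ∈ Iio 1 from h1)]
      by_cases h2 : |Real.sin θ| < κ
      · rw [indicator_of_mem (hiff.2 ⟨h1, h2⟩), indicator_of_mem (show θ ∈ {θ : ℝ | |Real.sin θ| < κ}
          from h2), mul_one, norm_polar hρ]
      · rw [indicator_of_notMem (fun h => h2 (hiff.1 h).2),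
          indicator_of_notMem (show θ ∉ {θ : ℝ | |Real.sin θ| < κ} from h2), mul_zero]
    · rw [indicator_of_notMem (show ρ ∉ Iio 1 from h1),
        indicator_of_notMem (fun h => h1 (hiff.1 h).1), zero_mul]

/-- the weight of a sector around a line -/
theorem weight_sector (b : ℕ) {κ : ℝ} (hκ : 0 < κ) {a : ℂ} (ha : ‖a‖ = 1) :
    ∫⁻ x : ℂ in {x | ‖x‖ < 1 ∧ |(a * x).im| < κ * ‖x‖}, ENNReal.ofReal ((1 - ‖x‖) ^ b) ≤
    ENNReal.ofReal (κ * (2 * π / ((b + 1) * (b + 2)))) := by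
  obtain ⟨R, hR⟩ : ∃ R : ℂ ≃ₗᵢ[ℝ] ℂ, ∀ x, R x = a * x :=
    ⟨rotation ⟨a, mem_sphere_zero_iff_norm.2 ha⟩, fun x => rfl⟩
  have hmp : MeasurePreserving (R : ℂ → ℂ) :=
    LinearIsometryEquiv.measurePreserving _
  have hms : MeasurableSet {x : ℂ | ‖x‖ < 1 ∧ |x.im| < κ * ‖x‖} := by
    apply IsOpen.measurableSet
    apply IsOpen.inter
    · exact isOpen_lt continuous_norm continuous_const
    · exact isOpen_lt (Complex.continuous_im.abs) (continuous_const.mul continuous_norm)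
  have h := hmp.setLIntegral_comp_preimage hms
    (f := fun x : ℂ => ENNReal.ofReal ((1 - ‖x‖) ^ b)) (by
      exact ENNReal.measurable_ofReal.comp (by fun_prop))
  refine le_trans (le_of_eq ?_) (weight_sector0 b hκ)
  rw [← h]
  have hset : (R : ℂ → ℂ) ⁻¹'
      {x : ℂ | ‖x‖ < 1 ∧ |x.im| < κ * ‖x‖} = {x | ‖x‖ < 1 ∧ |(a * x).im| < κ * ‖x‖} := by
    ext x
    simp only [mem_preimage, mem_ofPred_eq, hR, norm_mul, ha, one_mul]
  rw [hset]
  refine lintegral_congr fun x => ?_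
  simp [hR, ha]

end Pool.Agent.N359.Cone
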