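import Pool.Agent.N359.Cone.Polar

/-!
# Selection of good base points
-/

set_option autoImplicit false

namespace Pool.Agent.N359.Cone

open MeasureTheory Set Metric Pool.Agent.TH703.Cone
open scoped ENNReal InnerProductSpace Real

theorem weight_one (b : ℕ) :
    ∫⁻ x : ℂ in ball 0 1, ENNReal.ofReal ((1 - ‖x‖) ^ b) =
    ENNReal.ofReal (2 * π / ((b + 1) * (b + 2))) := by
  rw [weight_ball b 1 zero_le_one le_rfl]
  congr 1
  simp only [sub_self, ne_eq, Nat.add_eq_zero_iff, one_ne_zero, and_false, not_false_eq_true,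
    zero_pow, zero_mul, sub_zero]
  ring

theorem vol_Om {b : ℕ} {ε : ℝ} (hε : 0 < ε) :
    volume (Om b ε) = ENNReal.ofReal (vb b ε * (2 * π / ((b + 1) * (b + 2)))) := by
  rw [vol_eq isOpen_Om.measurableSet]
  have h1 : ∀ x : ℂ, volume (fib (Om b ε) x) = (ball (0 : ℂ) 1).indicator
      (fun x => ENNReal.ofReal (vb b ε) * ENNReal.ofReal ((1 - ‖x‖) ^ b)) x := by
    intro x
    by_cases hx : ‖x‖ < 1
    · rw [indicator_of_mem (mem_ball_zero_iff.2 hx), vol_fib_Om hε hx,
        ENNReal.ofReal_mul (vb_pos hε).le]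
    · rw [indicator_of_notMem (fun h => hx (mem_ball_zero_iff.1 h)),
        fib_Om_empty hε (not_lt.1 hx), measure_empty]
  simp_rw [h1]
  rw [lintegral_indicator measurableSet_ball, lintegral_const_mul _ (by
    exact ENNReal.measurable_ofReal.comp (by fun_prop)), weight_one,
    ← ENNReal.ofReal_mul (vb_pos hε).le]

theorem fib_mono {b : ℕ} {A A' : Set (W b)} (h : A ⊆ A') (x : ℂ) : fib A x ⊆ fib A' x :=
  fun _ hy => h hy

/-- selection of a good base point outside a sector -/
theorem exists_good {b : ℕ} {ε c : ℝ} (hε : 0 < ε) (hc : 0 < c) {G : Set (W b)}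
    (hG : IsOpen G) (hvol : ENNReal.ofReal c * volume (Om b ε) ≤ volume (Om b ε ∩ G)) {a : ℂ}
    (ha : ‖a‖ = 1) :
    ∃ x : ℂ, √(c / (4 * ((b + 1) * (b + 2)))) ≤ ‖x‖ ∧ ‖x‖ < 1 ∧
      c / (4 * ((b + 1) * (b + 2))) ≤ (1 - ‖x‖) ^ b ∧
      ENNReal.ofReal (c / 4 * (vb b ε * (1 - ‖x‖) ^ b)) ≤ volume (fib (Om b ε ∩ G) x) ∧
      c / 4 * ‖x‖ ≤ |(a * x).im| := by
  by_contra hcon
  push Not at hcon
  set τ : ℝ := c / (4 * ((b + 1) * (b + 2))) with hτ
  have hπ := Real.pi_pos
  have hτ0 : 0 < τ := by positivity
  have hv := vb_pos (b := b) hε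
  set w : ℂ → ℝ := fun x => (1 - ‖x‖) ^ b with hw
  set M : ℝ := 2 * π / ((b + 1) * (b + 2)) with hM
  have hM0 : 0 < M := by positivity
  have hmw : Measurable (fun x : ℂ => ENNReal.ofReal (w x)) :=
    ENNReal.measurable_ofReal.comp (by fun_prop)
  set T : Set ℂ := {x | ‖x‖ < 1 ∧ |(a * x).im| < c / 4 * ‖x‖} with hT
  have hTm : MeasurableSet T := by
    apply IsOpen.measurableSet
    apply IsOpen.inter
    · exact isOpen_lt continuous_norm continuous_const
    · exact isOpen_lt ((Complex.continuous_im.comp (continuous_const.mul continuous_id)).abs)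
        (continuous_const.mul continuous_norm)
  -- pointwise bound
  have hpt : ∀ x : ℂ, volume (fib (Om b ε ∩ G) x) ≤
      (ball (0 : ℂ) 1).indicator (fun x => ENNReal.ofReal (c / 4 * vb b ε) *
          ENNReal.ofReal (w x)) x +
        ((ball (0 : ℂ) 1).indicator (fun _ => ENNReal.ofReal (vb b ε * τ)) x +
        ((ball (0 : ℂ) (√τ)).indicator (fun _ => ENNReal.ofReal (vb b ε)) x +
        T.indicator (fun x => ENNReal.ofReal (vb b ε) * ENNReal.ofReal (w x)) x)) := by
    intro x
    by_cases hx : ‖x‖ < 1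
    · have hw0 : 0 ≤ w x := pow_nonneg (by linarith) b
      have hw1 : w x ≤ 1 := pow_le_one₀ (by linarith) (by linarith [norm_nonneg x])
      have hle : volume (fib (Om b ε ∩ G) x) ≤ ENNReal.ofReal (vb b ε * w x) := by
        rw [← vol_fib_Om hε hx]
        exact measure_mono (fib_mono inter_subset_left x)
      rw [indicator_of_mem (show x ∈ ball (0 : ℂ) 1 from mem_ball_zero_iff.2 hx),
        indicator_of_mem (show x ∈ ball (0 : ℂ) 1 from mem_ball_zero_iff.2 hx)]
      rcases lt_or_ge ‖x‖ (√τ) with h1 | h1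
      · rw [indicator_of_mem (show x ∈ ball (0 : ℂ) (√τ) from mem_ball_zero_iff.2 h1)]
        have : ENNReal.ofReal (vb b ε * w x) ≤ ENNReal.ofReal (vb b ε) :=
          ENNReal.ofReal_le_ofReal (by nlinarith)
        exact (hle.trans this).trans ((le_add_right le_rfl).trans
          ((le_add_left le_rfl).trans (le_add_left le_rfl)))
      rcases lt_or_ge (w x) τ with h2 | h2
      · have : ENNReal.ofReal (vb b ε * w x) ≤ ENNReal.ofReal (vb b ε * τ) :=
          ENNReal.ofReal_le_ofReal (by nlinarith)
        exact (hle.trans this).trans ((le_add_right le_rfl).trans (le_add_left le_rfl))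
      rcases lt_or_ge (volume (fib (Om b ε ∩ G) x))
        (ENNReal.ofReal (c / 4 * (vb b ε * w x))) with h3 | h3
      · have : ENNReal.ofReal (c / 4 * (vb b ε * w x)) =
            ENNReal.ofReal (c / 4 * vb b ε) * ENNReal.ofReal (w x) := by
          rw [← ENNReal.ofReal_mul (by positivity), mul_assoc]
        rw [this] at h3
        exact h3.le.trans (le_add_right le_rfl)
      · have h4 : x ∈ T := ⟨hx, hcon x h1 hx h2 h3⟩
        rw [indicator_of_mem h4, ← ENNReal.ofReal_mul hv.le]
        exact hle.trans ((le_add_left le_rfl).trans ((le_add_left le_rfl).trans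
          (le_add_left le_rfl)))
    · have : volume (fib (Om b ε ∩ G) x) = 0 := by
        apply measure_mono_null (fib_mono inter_subset_left x)
        rw [fib_Om_empty hε (not_lt.1 hx), measure_empty]
      rw [this]
      exact bot_le
  have hint : volume (Om b ε ∩ G) ≤ ENNReal.ofReal (c / 4 * vb b ε) * ENNReal.ofReal M +
      (ENNReal.ofReal (vb b ε * τ) * volume (ball (0 : ℂ) 1) +
      (ENNReal.ofReal (vb b ε) * volume (ball (0 : ℂ) (√τ)) +
      ENNReal.ofReal (vb b ε) * ENNReal.ofReal (c / 4 * M))) := by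
    rw [vol_eq (isOpen_Om.inter hG).measurableSet]
    refine (lintegral_mono hpt).trans ?_
    have m1 : Measurable ((ball (0 : ℂ) 1).indicator (fun x => ENNReal.ofReal (c / 4 * vb b ε) *
        ENNReal.ofReal (w x))) := (measurable_const.mul hmw).indicator measurableSet_ball
    have m2 : Measurable ((ball (0 : ℂ) 1).indicator
        (fun _ : ℂ => ENNReal.ofReal (vb b ε * τ))) :=
      measurable_const.indicator measurableSet_ball
    have m3 : Measurable ((ball (0 : ℂ) (√τ)).indicator
        (fun _ : ℂ => ENNReal.ofReal (vb b ε))) :=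
      measurable_const.indicator measurableSet_ball
    rw [lintegral_add_left m1, lintegral_add_left m2, lintegral_add_left m3,
      lintegral_indicator measurableSet_ball, lintegral_indicator measurableSet_ball,
      lintegral_indicator measurableSet_ball, lintegral_indicator hTm,
      lintegral_const_mul _ hmw, lintegral_const_mul _ hmw, lintegral_const, lintegral_const,
      Measure.restrict_apply_univ, Measure.restrict_apply_univ, weight_one]
    gcongr
    exact weight_sector b (by positivity) ha
  have hcM : ENNReal.ofReal (c * (vb b ε * M)) ≤ volume (Om b ε ∩ G) := by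
    rw [vol_Om hε, ← ENNReal.ofReal_mul hc.le] at hvol
    exact hvol
  have hfin := hcM.trans hint
  rw [Complex.volume_ball, Complex.volume_ball, ← ENNReal.ofReal_pow (by positivity),
    ← ENNReal.ofReal_pow (by positivity), Real.sq_sqrt hτ0.le] at hfin
  have hpi : ((NNReal.pi : NNReal) : ℝ≥0∞) = ENNReal.ofReal π := by
    rw [ENNReal.ofReal, ← NNReal.coe_real_pi, Real.toNNReal_coe]
  rw [hpi, ← ENNReal.ofReal_mul (by positivity), ← ENNReal.ofReal_mul (by positivity),
    ← ENNReal.ofReal_mul (by positivity), ← ENNReal.ofReal_mul (by positivity),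
    ← ENNReal.ofReal_mul (by positivity), ← ENNReal.ofReal_mul (by positivity),
    ← ENNReal.ofReal_add (by positivity) (by positivity),
    ← ENNReal.ofReal_add (by positivity) (by positivity),
    ← ENNReal.ofReal_add (by positivity) (by positivity),
    ENNReal.ofReal_le_ofReal_iff (by positivity)] at hfin
  have hτM : τ * π = c / 8 * M := by
    rw [hτ, hM]
    field_simp
    norm_num
  have : c * (vb b ε * M) ≤ c * (vb b ε * M) * (3 / 4) := by
    calc c * (vb b ε * M) ≤ _ := hfin
      _ = c / 4 * vb b ε * M + (vb b ε * (τ * π) + (vb b ε * (τ * π) + vb b ε * (c / 4 * M))) := by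
          ring
      _ = c * (vb b ε * M) * (3 / 4) := by
          rw [hτM]
          ring
  have hpos : 0 < c * (vb b ε * M) := by positivity
  linarith

end Pool.Agent.N359.Cone
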