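import Pool.Agent.N359.Cone.Geom

/-!
# T6: convex cones of volume at least `c |Om b ε|` contain a truncated wedge with large fibres
-/

set_option autoImplicit false

namespace Pool.Agent.N359.Cone

open MeasureTheory Set Metric Pool.Agent.TH703.Cone
open scoped ENNReal InnerProductSpace Real ComplexConjugate Pointwise

theorem toLp_smul {b : ℕ} (t : ℝ) (x : ℂ) (y : B b) :
    t • (WithLp.toLp 2 (x, y) : W b) = WithLp.toLp 2 ((t : ℂ) * x, t • y) := by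
  rw [← WithLp.toLp_smul, Prod.smul_mk, Complex.real_smul]

theorem toLp_add {b : ℕ} (x x' : ℂ) (y y' : B b) :
    (WithLp.toLp 2 (x, y) : W b) + WithLp.toLp 2 (x', y') = WithLp.toLp 2 (x + x', y + y') := by
  rw [← WithLp.toLp_add, Prod.mk_add_mk]

theorem isOpen_fib {b : ℕ} {A : Set (W b)} (hA : IsOpen A) (x : ℂ) : IsOpen (fib A x) := by
  have hc : Continuous (fun y : B b => (WithLp.toLp 2 (x, y) : W b)) := by fun_prop
  exact hA.preimage hc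

theorem convex_fib_cone {b : ℕ} {G : Set (W b)} (h1 : ∀ z ∈ G, ∀ t : ℝ, 0 < t → t • z ∈ G)
    (h2 : ∀ z ∈ G, ∀ w ∈ G, z + w ∈ G) (x : ℂ) : Convex ℝ (fib G x) := by
  intro y hy y' hy' s t hs ht hst
  rcases eq_or_lt_of_le hs with h | h
  · have : t = 1 := by linarith
    rw [← h, this, zero_smul, one_smul, zero_add]
    exact hy'
  rcases eq_or_lt_of_le ht with h' | h'
  · have : s = 1 := by linarith
    rw [← h', this, zero_smul, one_smul, add_zero]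
    exact hy
  have h3 := h2 _ (h1 _ hy s h) _ (h1 _ hy' t h')
  rw [toLp_smul, toLp_smul, toLp_add] at h3
  have h4 : (s : ℂ) * x + (t : ℂ) * x = x := by
    rw [← add_mul, ← Complex.ofReal_add, hst, Complex.ofReal_one, one_mul]
  rw [h4] at h3
  exact h3

theorem convex_fib {b : ℕ} {ε : ℝ} (hε : 0 < ε) {G : Set (W b)}
    (h1 : ∀ z ∈ G, ∀ t : ℝ, 0 < t → t • z ∈ G)
    (h2 : ∀ z ∈ G, ∀ w ∈ G, z + w ∈ G) (x : ℂ) : Convex ℝ (fib (Om b ε ∩ G) x) := by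
  have : fib (Om b ε ∩ G) x = fib (Om b ε) x ∩ fib G x := rfl
  rw [this, fib_Om hε]
  exact (convex_ball _ _).inter (convex_fib_cone h1 h2 x)

/-- a point of the fibre close to the centre -/
theorem near_point {b : ℕ} {ε c δ : ℝ} (hb : 1 ≤ b) (hε : 0 < ε) (hc : 0 < c) {G : Set (W b)}
    (hG : IsOpen G) (h1 : ∀ z ∈ G, ∀ t : ℝ, 0 < t → t • z ∈ G)
    (h2 : ∀ z ∈ G, ∀ w ∈ G, z + w ∈ G) {x : ℂ} (hx : ‖x‖ < 1)
    (hv : ENNReal.ofReal (c / 4 * (vb b ε * (1 - ‖x‖) ^ b)) ≤ volume (fib (Om b ε ∩ G) x))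
    (hδ0 : 0 < δ) (hδ : 1 < c / 4 * b * δ ^ 2) :
    ∃ y : B b, (WithLp.toLp 2 (x, y) : W b) ∈ G ∧ ‖y‖ < δ * ε := by
  have hR : 0 < ε * (1 - ‖x‖) := mul_pos hε (by linarith)
  have hsub : fib (Om b ε ∩ G) x ⊆ ball 0 (ε * (1 - ‖x‖)) := by
    rw [← fib_Om hε]
    exact fib_mono inter_subset_left x
  have hfin : volume (fib (Om b ε ∩ G) x) ≠ ∞ :=
    ((measure_mono hsub).trans_lt measure_ball_lt_top).ne
  have hvol : c / 4 * volume.real (ball (0 : B b) (ε * (1 - ‖x‖))) ≤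
      volume.real (fib (Om b ε ∩ G) x) := by
    have e1 : volume.real (ball (0 : B b) (ε * (1 - ‖x‖))) = vb b ε * (1 - ‖x‖) ^ b := by
      rw [← fib_Om hε, measureReal_def, vol_fib_Om hε hx, ENNReal.toReal_ofReal]
      exact mul_nonneg (vb_pos hε).le (pow_nonneg (by linarith) b)
    rw [e1, measureReal_def]
    exact (ENNReal.ofReal_le_iff_le_toReal hfin).1 hv
  obtain ⟨y, hy, hyn⟩ := near_center hb hR (by positivity : 0 < c / 4)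
    (convex_fib hε h1 h2 x) (isOpen_fib (isOpen_Om.inter hG) x) hsub hvol
    (mul_pos hδ0 hε) (by
      have hx0 := norm_nonneg x
      have : (ε * (1 - ‖x‖)) ^ 2 ≤ ε ^ 2 := by
        apply pow_le_pow_left₀ hR.le
        nlinarith
      have h3 : ε ^ 2 < c / 4 * b * (δ * ε) ^ 2 := by
        have := mul_lt_mul_of_pos_right hδ (by positivity : 0 < ε ^ 2)
        rw [one_mul] at this
        calc ε ^ 2 < c / 4 * b * δ ^ 2 * ε ^ 2 := this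
          _ = _ := by ring
      linarith)
  exact ⟨y, hy.2, hyn⟩

/-- the volume of an affine image -/
theorem vol_affine {b : ℕ} (C : Set (B b)) {t : ℝ} (ht : 0 ≤ t) (w : B b) :
    volume ((fun y => w + t • y) '' C) = ENNReal.ofReal (t ^ b) * volume C := by
  have h1 : (fun y => w + t • y) '' C = (fun y => w + y) '' (t • C) := by
    rw [← image_smul, image_image]
  rw [h1, image_add_left, measure_preimage_add, Measure.addHaar_smul,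
    finrank_euclideanSpace_fin, abs_of_nonneg (pow_nonneg ht b)]

/-- the fibre over a positive combination of two good points -/
theorem fib_comb {b : ℕ} {ε c : ℝ} (hε : 0 < ε) {G : Set (W b)}
    (h1 : ∀ z ∈ G, ∀ t : ℝ, 0 < t → t • z ∈ G)
    (h2 : ∀ z ∈ G, ∀ w ∈ G, z + w ∈ G) {x₁ x₂ : ℂ} {y₁ y₂ : B b} {δ Λ s₀ : ℝ}
    (hy₁ : (WithLp.toLp 2 (x₁, y₁) : W b) ∈ G) (hy₂ : (WithLp.toLp 2 (x₂, y₂) : W b) ∈ G)
    (hn₁ : ‖y₁‖ < δ * ε) (hn₂ : ‖y₂‖ < δ * ε) {s₁ s₂ : ℝ} (hs₀ : 0 < s₀) (hs₁ : s₀ ≤ s₁)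
    (hs₂ : s₀ ≤ s₂) (hl₁ : s₁ ≤ Λ) (hl₂ : s₂ ≤ Λ) (hΛδ : Λ * δ ≤ 1 / 8)
    (hx : ‖(s₁ : ℂ) * x₁ + (s₂ : ℂ) * x₂‖ ≤ 1 / 4)
    (hv : ENNReal.ofReal c ≤ volume (fib (Om b ε ∩ G) x₁)) :
    ENNReal.ofReal ((s₀ * (1 / (4 * (Λ + 1)))) ^ b * c) ≤
      volume (fib (Om b ε ∩ G) ((s₁ : ℂ) * x₁ + (s₂ : ℂ) * x₂)) := by
  have hΛ0 : 0 < Λ := by linarith
  set l : ℝ := 1 / (4 * (Λ + 1)) with hl
  have hl0 : 0 < l := by positivity
  have hl1 : l < 1 := by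
    rw [hl, div_lt_one (by positivity)]
    linarith
  have hs₁0 : 0 < s₁ := by linarith
  have hs₂0 : 0 < s₂ := by linarith
  have hΛl : Λ * l ≤ 1 / 4 := by
    rw [hl, mul_one_div, div_le_iff₀ (by positivity)]
    linarith
  have hsub : (fun y => (s₁ • ((1 - l) • y₁) + s₂ • y₂) + (s₁ * l) • y) ''
      fib (Om b ε ∩ G) x₁ ⊆ fib (Om b ε ∩ G) ((s₁ : ℂ) * x₁ + (s₂ : ℂ) * x₂) := by
    rintro _ ⟨y, hy, rfl⟩
    have hyO : ‖y‖ < ε := by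
      have : y ∈ fib (Om b ε) x₁ := hy.1
      rw [fib_Om hε, mem_ball_zero_iff] at this
      have h0 := norm_nonneg x₁
      nlinarith
    constructor
    · change _ ∈ fib (Om b ε) _
      rw [fib_Om hε, mem_ball_zero_iff]
      have e1 : ‖s₁ • ((1 - l) • y₁) + s₂ • y₂ + (s₁ * l) • y‖ ≤
          s₁ * ((1 - l) * ‖y₁‖) + s₂ * ‖y₂‖ + s₁ * l * ‖y‖ := by
        refine (norm_add_le _ _).trans (add_le_add ((norm_add_le _ _).trans
          (add_le_add (le_of_eq ?_) (le_of_eq ?_))) (le_of_eq ?_))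
        · rw [norm_smul, norm_smul, Real.norm_of_nonneg hs₁0.le,
            Real.norm_of_nonneg (by linarith)]
        · rw [norm_smul, Real.norm_of_nonneg hs₂0.le]
        · rw [norm_smul, Real.norm_of_nonneg (by positivity)]
      have hδ0 : 0 < δ := by
        by_contra hcon
        push Not at hcon
        have := norm_nonneg y₁
        nlinarith
      have e2 : s₁ * ((1 - l) * ‖y₁‖) ≤ Λ * (δ * ε) := by
        have h3 : (1 - l) * ‖y₁‖ ≤ δ * ε := by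
          have : (1 - l) * ‖y₁‖ ≤ 1 * ‖y₁‖ :=
            mul_le_mul_of_nonneg_right (by linarith) (norm_nonneg _)
          linarith
        exact mul_le_mul hl₁ h3 (mul_nonneg (by linarith) (norm_nonneg _)) hΛ0.le
      have e3 : s₂ * ‖y₂‖ ≤ Λ * (δ * ε) := mul_le_mul hl₂ hn₂.le (norm_nonneg _) hΛ0.le
      have e4 : s₁ * l * ‖y‖ ≤ 1 / 4 * ε := by
        have : s₁ * l ≤ 1 / 4 := (mul_le_mul_of_nonneg_right hl₁ hl0.le).trans hΛl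
        exact mul_le_mul this hyO.le (norm_nonneg _) (by norm_num)
      have e5 : Λ * (δ * ε) ≤ 1 / 8 * ε := by
        rw [← mul_assoc]
        exact mul_le_mul_of_nonneg_right hΛδ hε.le
      have e6 : ε * (3 / 4) ≤ ε * (1 - ‖(s₁ : ℂ) * x₁ + (s₂ : ℂ) * x₂‖) :=
        mul_le_mul_of_nonneg_left (by linarith) hε.le
      linarith
    · change (WithLp.toLp 2 ((s₁ : ℂ) * x₁ + (s₂ : ℂ) * x₂,
        s₁ • ((1 - l) • y₁) + s₂ • y₂ + (s₁ * l) • y) : W b) ∈ G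
      have g1 := h2 _ (h1 _ hy₁ (1 - l) (by linarith)) _ (h1 _ hy.2 l hl0)
      have g2 := h2 _ (h1 _ g1 s₁ hs₁0) _ (h1 _ hy₂ s₂ hs₂0)
      rw [toLp_smul, toLp_smul, toLp_add, toLp_smul, toLp_smul, toLp_add] at g2
      have q1 : (s₁ : ℂ) * (((1 - l : ℝ) : ℂ) * x₁ + (l : ℂ) * x₁) + (s₂ : ℂ) * x₂ =
          (s₁ : ℂ) * x₁ + (s₂ : ℂ) * x₂ := by
        push_cast
        ring
      have q2 : s₁ • ((1 - l) • y₁ + l • y) + s₂ • y₂ =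
          s₁ • ((1 - l) • y₁) + s₂ • y₂ + (s₁ * l) • y := by
        rw [smul_add, smul_smul s₁ l]
        abel
      rw [q1, q2] at g2
      exact g2
  refine le_trans ?_ (measure_mono hsub)
  rw [vol_affine _ (by positivity)]
  calc ENNReal.ofReal ((s₀ * l) ^ b * c)
      = ENNReal.ofReal ((s₀ * l) ^ b) * ENNReal.ofReal c := by
        rw [ENNReal.ofReal_mul (by positivity)]
    _ ≤ ENNReal.ofReal ((s₁ * l) ^ b) * volume (fib (Om b ε ∩ G) x₁) := by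
        gcongr

/-- the ordered version of the main step -/
theorem wedge_of_pair {b : ℕ} {ε c cv : ℝ} (hε : 0 < ε) {G : Set (W b)}
    (h1 : ∀ z ∈ G, ∀ t : ℝ, 0 < t → t • z ∈ G)
    (h2 : ∀ z ∈ G, ∀ w ∈ G, z + w ∈ G) {x₁ x₂ : ℂ} {y₁ y₂ : B b} {δ R₁ r₀ ρ₀ : ℝ}
    (hy₁ : (WithLp.toLp 2 (x₁, y₁) : W b) ∈ G) (hy₂ : (WithLp.toLp 2 (x₂, y₂) : W b) ∈ G)
    (hn₁ : ‖y₁‖ < δ * ε) (hn₂ : ‖y₂‖ < δ * ε) (hc : 0 < c) (hc1 : c ≤ 1) (hρ : 0 < ρ₀)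
    (hr₀ : 0 < r₀) (hR₁ : R₁ ≤ 1 / 4) (hR₁0 : 0 ≤ R₁)
    (hx₁ : ρ₀ ≤ ‖x₁‖) (hx₁' : ‖x₁‖ < 1) (hx₂ : ρ₀ ≤ ‖x₂‖) (hx₂' : ‖x₂‖ < 1)
    (hΛδ : (R₁ / (ρ₀ * (c / 4)) + r₀ * (c / 16)) * δ ≤ 1 / 8)
    (hv : ENNReal.ofReal cv ≤ volume (fib (Om b ε ∩ G) x₁))
    (hd : c / 4 * (‖x₁‖ * ‖x₂‖) ≤ dt x₁ x₂) :
    ∃ u : ℂ, ‖u‖ = 1 ∧ ∀ x ∈ Wp u (c / 32) r₀ R₁,
      ENNReal.ofReal ((r₀ * (c / 16) *
        (1 / (4 * ((R₁ / (ρ₀ * (c / 4)) + r₀ * (c / 16)) + 1)))) ^ b * cv) ≤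
      volume (fib (Om b ε ∩ G) x) := by
  have hp₁ : 0 < ‖x₁‖ := by linarith
  have hp₂ : 0 < ‖x₂‖ := by linarith
  have hne₁ : (‖x₁‖ : ℂ) ≠ 0 := by exact_mod_cast hp₁.ne'
  have hne₂ : (‖x₂‖ : ℂ) ≠ 0 := by exact_mod_cast hp₂.ne'
  set e₁ : ℂ := x₁ / ‖x₁‖ with he₁
  set e₂ : ℂ := x₂ / ‖x₂‖ with he₂
  have hx₁e : x₁ = (‖x₁‖ : ℂ) * e₁ := by rw [he₁, mul_div_cancel₀ _ hne₁]
  have hx₂e : x₂ = (‖x₂‖ : ℂ) * e₂ := by rw [he₂, mul_div_cancel₀ _ hne₂]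
  have hu₁ : ‖e₁‖ = 1 := by
    rw [he₁, norm_div, Complex.norm_real, norm_norm, div_self hp₁.ne']
  have hu₂ : ‖e₂‖ = 1 := by
    rw [he₂, norm_div, Complex.norm_real, norm_norm, div_self hp₂.ne']
  have dtmul : ∀ (s t : ℝ) (p q : ℂ), dt ((s : ℂ) * p) ((t : ℂ) * q) = s * t * dt p q := by
    intro s t p q
    simp only [dt, Complex.mul_re, Complex.mul_im, Complex.ofReal_re, Complex.ofReal_im]
    ring
  have hD : c / 4 ≤ dt e₁ e₂ := by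
    have h3 : dt x₁ x₂ = ‖x₁‖ * ‖x₂‖ * dt e₁ e₂ := by
      conv_lhs => rw [hx₁e, hx₂e]
      exact dtmul _ _ _ _
    rw [h3, mul_comm] at hd
    exact le_of_mul_le_mul_left hd (mul_pos hp₁ hp₂)
  have hD1 : dt e₁ e₂ ≤ 1 := by
    have := (le_abs_self _).trans (abs_dt_le e₁ e₂)
    rwa [hu₁, hu₂, one_mul] at this
  have hD0 : 0 < dt e₁ e₂ := by linarith
  obtain ⟨u, hu, hw⟩ := bisector hu₁ hu₂ (by positivity : 0 < c / 4) (by linarith) hD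
  refine ⟨u, hu, ?_⟩
  rintro x ⟨hxr, hxR, hre, him⟩
  have hxp : 0 < ‖x‖ := by linarith
  have hxne : (‖x‖ : ℂ) ≠ 0 := by exact_mod_cast hxp.ne'
  set v : ℂ := x / ‖x‖ with hvdef
  have hxv : x = (‖x‖ : ℂ) * v := by rw [hvdef, mul_div_cancel₀ _ hxne]
  have hvn : ‖v‖ = 1 := by
    rw [hvdef, norm_div, Complex.norm_real, norm_norm, div_self hxp.ne']
  have hvu : v * u = (x * u) / (‖x‖ : ℂ) := by rw [hvdef]; ring
  obtain ⟨hd1, hd2⟩ := hw v hvn (by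
    rw [hvu, Complex.div_ofReal_re]
    positivity) (by
    rw [hvu, Complex.div_ofReal_im, abs_div, abs_of_pos hxp, div_le_iff₀ hxp]
    calc |(x * u).im| ≤ c / 32 * ‖x‖ := him
      _ = c / 4 / 8 * ‖x‖ := by ring)
  have hd1' : dt e₁ v ≤ 1 := by
    have := (le_abs_self _).trans (abs_dt_le e₁ v)
    rwa [hu₁, hvn, one_mul] at this
  have hd2' : dt v e₂ ≤ 1 := by
    have := (le_abs_self _).trans (abs_dt_le v e₂)
    rwa [hu₂, hvn, one_mul] at this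
  set s₁ : ℝ := ‖x‖ * dt v e₂ / (‖x₁‖ * dt e₁ e₂) with hs₁
  set s₂ : ℝ := ‖x‖ * dt e₁ v / (‖x₂‖ * dt e₁ e₂) with hs₂
  have hxs : x = (s₁ : ℂ) * x₁ + (s₂ : ℂ) * x₂ := by
    have hc1 := cramer e₁ e₂ v
    have hDne : (dt e₁ e₂ : ℂ) ≠ 0 := by exact_mod_cast hD0.ne'
    conv_lhs => rw [hxv]
    have hv' : v = ((dt v e₂ : ℂ) * e₁ + (dt e₁ v : ℂ) * e₂) / (dt e₁ e₂ : ℂ) := by
      rw [eq_div_iff hDne, mul_comm, hc1]
    conv_lhs => rw [hv']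
    rw [hs₁, hs₂, he₁, he₂]
    push_cast
    field_simp
  have lowb : ∀ (p q : ℝ), 0 < p → p < 1 → c / 16 ≤ q → r₀ * (c / 16) ≤ ‖x‖ * q / (p * dt e₁ e₂) := by
    intro p q hp hp1 hq
    rw [le_div_iff₀ (by positivity)]
    have a1 : p * dt e₁ e₂ ≤ 1 := by nlinarith
    have a2 : r₀ * (c / 16) ≤ ‖x‖ * q := mul_le_mul hxr hq (by positivity) hxp.le
    have a3 : 0 < r₀ * (c / 16) := by positivity
    nlinarith
  have uppb : ∀ (p q : ℝ), ρ₀ ≤ p → q ≤ 1 → 0 < q → ‖x‖ * q / (p * dt e₁ e₂) ≤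
      R₁ / (ρ₀ * (c / 4)) + r₀ * (c / 16) := by
    intro p q hp hq hq0
    have a1 : ‖x‖ * q / (p * dt e₁ e₂) ≤ R₁ / (ρ₀ * (c / 4)) := by
      apply div_le_div₀ hR₁0 _ (by positivity) (mul_le_mul hp hD (by positivity) (by linarith))
      calc ‖x‖ * q ≤ R₁ * 1 := mul_le_mul hxR hq hq0.le hR₁0
        _ = R₁ := mul_one _
    have a2 : 0 < r₀ * (c / 16) := by positivity
    linarith
  rw [hxs]
  exact fib_comb hε h1 h2 hy₁ hy₂ hn₁ hn₂ (by positivity)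
    (lowb _ _ hp₁ hx₁' (by linarith)) (lowb _ _ hp₂ hx₂' (by linarith))
    (uppb _ _ hx₁ hd2' (by linarith)) (uppb _ _ hx₂ hd1' (by linarith)) hΛδ
    (by rw [← hxs]; linarith) hv

/-- **T6.** geometry of the convex cones of volume at least `c |Om b ε|` -/
theorem cone_geom (b : ℕ) (c K r₀ : ℝ) (hc : 0 < c) (hc1 : c ≤ 1) (hK : 2 ≤ K)
    (hb : 100000 * K ^ 2 / c ^ 4 < b) (hr : 0 < r₀) :
    ∃ σ η : ℝ, 0 < σ ∧ σ ≤ 1 / 2 ∧ 0 < η ∧ ∀ (ε : ℝ) (G : Set (W b)), 0 < ε →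
      IsOpen G → (∀ z ∈ G, ∀ t : ℝ, 0 < t → t • z ∈ G) → (∀ z ∈ G, ∀ w ∈ G, z + w ∈ G) →
      ENNReal.ofReal c * volume (Om b ε) ≤ volume (Om b ε ∩ G) →
      ∃ u : ℂ, ‖u‖ = 1 ∧ ∀ x ∈ Wp u σ r₀ ((K - 1) / b),
        ENNReal.ofReal (η * vb b ε) ≤ volume (fib (Om b ε ∩ G) x) := by
  have hc4 : c ^ 4 ≤ 1 := pow_le_one₀ hc.le hc1
  have hc40 : 0 < c ^ 4 := by positivity
  rw [div_lt_iff₀ hc40] at hb
  have hb5 : (100000 : ℝ) ≤ b := by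
    have h1 : (b : ℝ) * c ^ 4 ≤ b * 1 := mul_le_mul_of_nonneg_left hc4 (Nat.cast_nonneg b)
    nlinarith
  have hb1 : 1 ≤ b := by
    have : (1 : ℝ) ≤ b := by linarith
    exact_mod_cast this
  have hb0 : (0 : ℝ) < b := by linarith
  set τ : ℝ := c / (4 * ((b + 1) * (b + 2))) with hτ
  have hτ0 : 0 < τ := by positivity
  set ρ₀ : ℝ := √τ with hρ₀
  have hρ0 : 0 < ρ₀ := Real.sqrt_pos.2 hτ0
  set δ : ℝ := √(5 / (c * b)) with hδ
  have hδ0 : 0 < δ := Real.sqrt_pos.2 (by positivity)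
  have hδsq : δ ^ 2 = 5 / (c * b) := Real.sq_sqrt (by positivity)
  have hρsq : ρ₀ ^ 2 = τ := Real.sq_sqrt hτ0.le
  set R₁ : ℝ := (K - 1) / b with hR₁
  have hR0 : 0 ≤ R₁ := div_nonneg (by linarith) hb0.le
  have hbK : 100000 * K ^ 2 < b := by
    have h1 : (b : ℝ) * c ^ 4 ≤ b * 1 := mul_le_mul_of_nonneg_left hc4 (Nat.cast_nonneg b)
    linarith
  have hR14 : R₁ ≤ 1 / 4 := by
    rw [hR₁, div_le_iff₀ hb0]
    nlinarith
  set η : ℝ := (r₀ * (c / 16) * (1 / (4 * ((R₁ / (ρ₀ * (c / 4)) + r₀ * (c / 16)) + 1)))) ^ b *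
    (c / 4 * τ) with hη
  have hη0 : 0 < η := by positivity
  refine ⟨c / 32, η, by positivity, by linarith, hη0, ?_⟩
  intro ε G hε hG h1 h2 hvol
  rcases lt_or_ge R₁ r₀ with hcase | hcase
  · refine ⟨1, norm_one, ?_⟩
    rintro x ⟨ha, hb', -, -⟩
    exact absurd (ha.trans hb') (not_le.2 hcase)
  -- the constant
  have hΛδ : (R₁ / (ρ₀ * (c / 4)) + r₀ * (c / 16)) * δ ≤ 1 / 8 := by
    have hδs : δ ≤ 1 / 10 := by
      rw [hδ]
      apply Real.sqrt_le_iff.2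
      refine ⟨by norm_num, ?_⟩
      rw [div_le_iff₀ (by positivity)]
      have hc3 : c ^ 4 ≤ c := by
        calc c ^ 4 ≤ c ^ 1 := pow_le_pow_of_le_one hc.le hc1 (by norm_num)
          _ = c := pow_one c
      have : 100000 * K ^ 2 < b * c := lt_of_lt_of_le hb
        (mul_le_mul_of_nonneg_left hc3 hb0.le)
      nlinarith
    have h3 : (R₁ / (ρ₀ * (c / 4)) * δ) ^ 2 ≤ (3 / 25) ^ 2 := by
      have e1 : (R₁ / (ρ₀ * (c / 4)) * δ) ^ 2 =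
          R₁ ^ 2 * 16 * δ ^ 2 / (ρ₀ ^ 2 * c ^ 2) := by
        field_simp
        ring
      rw [e1, hδsq, hρsq, hτ, hR₁]
      have e2 : ((K - 1) / b) ^ 2 * 16 * (5 / (c * b)) / (c / (4 * ((b + 1) * (b + 2))) * c ^ 2) =
          320 * (K - 1) ^ 2 * ((b + 1) * (b + 2)) / (b ^ 3 * c ^ 4) := by
        field_simp
        ring
      rw [e2, div_le_iff₀ (by positivity)]
      have e3 : ((b : ℝ) + 1) * (b + 2) ≤ (11 / 10) * b ^ 2 := by nlinarith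
      have e4 : (K - 1) ^ 2 ≤ K ^ 2 := by nlinarith
      calc 320 * (K - 1) ^ 2 * (((b : ℝ) + 1) * (b + 2))
          ≤ 320 * K ^ 2 * ((11 / 10) * b ^ 2) := by
            apply mul_le_mul (by linarith) e3 (by positivity) (by positivity)
        _ = (352 / 100000) * (100000 * K ^ 2) * b ^ 2 := by ring
        _ ≤ (352 / 100000) * (b * c ^ 4) * b ^ 2 := by
            gcongr
        _ ≤ (3 / 25) ^ 2 * (b ^ 3 * c ^ 4) := by
            have : 0 < (b : ℝ) ^ 3 * c ^ 4 := by positivity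
            nlinarith
    have h4 : R₁ / (ρ₀ * (c / 4)) * δ ≤ 3 / 25 :=
      le_of_sq_le_sq h3 (by norm_num)
    have h5 : r₀ * (c / 16) * δ ≤ 1 / 4 * (1 / 16) * (1 / 10) := by
      have : r₀ * (c / 16) ≤ 1 / 4 * (1 / 16) :=
        mul_le_mul (hcase.trans hR14) (by linarith) (by positivity) (by norm_num)
      exact mul_le_mul this hδs hδ0.le (by norm_num)
    rw [add_mul]
    linarith
  obtain ⟨x₁, hx₁, hx₁', hw₁, hv₁, -⟩ := exists_good (b := b) hε hc hG hvol (a := 1) norm_one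
  have hp₁ : 0 < ‖x₁‖ := lt_of_lt_of_le hρ0 hx₁
  obtain ⟨x₂, hx₂, hx₂', hw₂, hv₂, hs⟩ := exists_good (b := b) hε hc hG hvol
    (a := conj x₁ / ‖x₁‖) (by
      rw [norm_div, RCLike.norm_conj, Complex.norm_real, norm_norm, div_self hp₁.ne'])
  have hdt : c / 4 * (‖x₁‖ * ‖x₂‖) ≤ |dt x₁ x₂| := by
    have h3 : (conj x₁ / ‖x₁‖ * x₂) = (conj x₁ * x₂) / (‖x₁‖ : ℂ) := by ring
    rw [h3, Complex.div_ofReal_im, ← dt_eq, abs_div, abs_of_pos hp₁, le_div_iff₀ hp₁] at hs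
    linarith
  obtain ⟨y₁, hy₁, hn₁⟩ := near_point hb1 hε hc hG h1 h2 hx₁' hv₁ hδ0 (by
    rw [hδsq]
    field_simp
    norm_num)
  obtain ⟨y₂, hy₂, hn₂⟩ := near_point hb1 hε hc hG h1 h2 hx₂' hv₂ hδ0 (by
    rw [hδsq]
    field_simp
    norm_num)
  have hvb := vb_pos (b := b) hε
  have hcv : ∀ x : ℂ, τ ≤ (1 - ‖x‖) ^ b →
      ENNReal.ofReal (c / 4 * (vb b ε * (1 - ‖x‖) ^ b)) ≤ volume (fib (Om b ε ∩ G) x) →
      ENNReal.ofReal (c / 4 * (vb b ε * τ)) ≤ volume (fib (Om b ε ∩ G) x) := by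
    intro x hx hx'
    refine le_trans (ENNReal.ofReal_le_ofReal ?_) hx'
    gcongr
  have hηe : η * vb b ε = (r₀ * (c / 16) *
      (1 / (4 * ((R₁ / (ρ₀ * (c / 4)) + r₀ * (c / 16)) + 1)))) ^ b * (c / 4 * (vb b ε * τ)) := by
    rw [hη]
    ring
  rw [hηe]
  rcases le_or_gt 0 (dt x₁ x₂) with hsg | hsg
  · rw [abs_of_nonneg hsg] at hdt
    exact wedge_of_pair hε h1 h2 hy₁ hy₂ hn₁ hn₂ hc hc1 hρ0 hr hR14 hR0 hx₁ hx₁' hx₂ hx₂' hΛδ
      (hcv x₁ hw₁ hv₁) hdt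
  · rw [abs_of_neg hsg] at hdt
    have hsw : dt x₂ x₁ = -dt x₁ x₂ := by unfold dt; ring
    exact wedge_of_pair hε h1 h2 hy₂ hy₁ hn₂ hn₁ hc hc1 hρ0 hr hR14 hR0 hx₂ hx₂' hx₁ hx₁' hΛδ
      (hcv x₂ hw₂ hv₂) (by rw [hsw]; linarith)

end Pool.Agent.N359.Cone
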